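import Pool.Agent.W969.K65.Flag
import Pool.Agent.H120R2.CliqueDefs

/-! From 5-tuples to the Turán density. -/

set_option autoImplicit false
set_option linter.all false
set_option maxHeartbeats 1000000

open Finset Filter Topology

namespace Pool.Agent.W969.K65

open Pool.Agent.H120R2.Clique

section
variable {V : Type} [Fintype V] [DecidableEq V] {G : Finset (Finset V)}

theorem exists_other : ∀ i s t : Fin 7, ∃ j, j ≠ i ∧ j ≠ s ∧ j ≠ t := by decide

theorem card5 : ∀ i j : Fin 7, j ≠ i → (univ.filter (fun t : Fin 7 => t ≠ i ∧ t ≠ j)).card = 5 := by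
  decide

theorem card6 : ∀ i : Fin 7, (univ.filter (fun t : Fin 7 => t ≠ i)).card = 6 := by decide

/-- the covering condition -/
theorem cover (h5 : ∀ A ∈ G, A.card = 5) (hK : ¬ ∃ A : Finset V, A.card = 6 ∧ A.powersetCard 5 ⊆ G)
    (x : Fin 7 → V) (i : Fin 7) : 1 ≤ deg (hh G x) i := by
  by_contra hcon
  apply hK
  have hd : deg (hh G x) i = 0 := by omega
  have hz : ∀ j, hh G x i j = 0 := fun j => (sum_eq_zero_iff.mp hd) j (mem_univ j)
  have hm : ∀ j, j ≠ i → (univ.filter (fun t => t ≠ i ∧ t ≠ j)).image x ∈ G := by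
    intro j hj
    have := hz j
    unfold hh at this
    rw [if_neg (Ne.symm hj)] at this
    by_contra h
    rw [if_neg h] at this
    omega
  have hcard : ∀ j, j ≠ i → (univ.filter (fun t : Fin 7 => t ≠ i ∧ t ≠ j)).card = 5 := card5 i
  have hinj : ∀ s t : Fin 7, s ≠ i → t ≠ i → x s = x t → s = t := by
    intro s t hs ht hst
    obtain ⟨j, hj1, hj2, hj3⟩ := exists_other i s t
    have h1 := h5 _ (hm j hj1)
    have h2 := hcard j hj1
    have h3 : Set.InjOn x ((univ.filter (fun t : Fin 7 => t ≠ i ∧ t ≠ j) : Finset (Fin 7)) : Set (Fin 7)) := by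
      rw [← Finset.card_image_iff, h1, h2]
    exact h3 (by simp [hs, hj2.symm]) (by simp [ht, hj3.symm]) hst
  have hinj2 : Set.InjOn x ((univ.filter (fun t : Fin 7 => t ≠ i) : Finset (Fin 7)) : Set (Fin 7)) := by
    intro s hs t ht hst
    simp only [coe_filter, mem_univ, true_and, Set.mem_setOf_eq] at hs ht
    exact hinj s t hs ht hst
  have hA : ((univ.filter (fun t : Fin 7 => t ≠ i)).image x).card = 6 := by
    rw [Finset.card_image_of_injOn hinj2]
    exact card6 i
  refine ⟨(univ.filter (fun t : Fin 7 => t ≠ i)).image x, hA, ?_⟩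
  intro B hB
  rw [mem_powersetCard] at hB
  obtain ⟨hs, hc⟩ := hB
  have hd1 : (((univ.filter (fun t : Fin 7 => t ≠ i)).image x) \ B).card = 1 := by
    rw [card_sdiff_of_subset hs]; omega
  obtain ⟨v, hv⟩ := card_eq_one.mp hd1
  have hvm : v ∈ ((univ.filter (fun t : Fin 7 => t ≠ i)).image x) \ B := by rw [hv]; simp
  rw [Finset.mem_sdiff, mem_image] at hvm
  obtain ⟨⟨j, hj, rfl⟩, hjB⟩ := hvm
  simp only [mem_filter, mem_univ, true_and] at hj
  have : B = (univ.filter (fun t => t ≠ i ∧ t ≠ j)).image x := by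
    ext w
    constructor
    · intro hw
      have hw2 := hs hw
      rw [mem_image] at hw2 ⊢
      obtain ⟨t, ht, rfl⟩ := hw2
      simp only [mem_filter, mem_univ, true_and] at ht
      refine ⟨t, ?_, rfl⟩
      simp only [mem_filter, mem_univ, true_and]
      refine ⟨ht, ?_⟩
      rintro rfl
      exact hjB hw
    · intro hw
      rw [mem_image] at hw
      obtain ⟨t, ht, rfl⟩ := hw
      simp only [mem_filter, mem_univ, true_and] at ht
      by_contra hcon2
      have h6 : x t ∈ ((univ.filter (fun t : Fin 7 => t ≠ i)).image x) \ B := by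
        rw [Finset.mem_sdiff, mem_image]
        exact ⟨⟨t, by simp [ht.1], rfl⟩, hcon2⟩
      rw [hv, mem_singleton] at h6
      exact ht.2 (hinj t j ht.1 hj h6)
  rw [this]
  exact hm j hj

/-- every edge gives at least 120 ordered 5-tuples -/
theorem orders_le (G : Finset (Finset V)) (h5 : ∀ A ∈ G, A.card = 5) :
    120 * G.card ≤ (univ.filter fun y : Fin 5 → V => univ.image y ∈ G).card := by
  have h1 : ∀ e ∈ G, 120 ≤ ((univ.filter fun y : Fin 5 → V => univ.image y ∈ G).filter
      fun y => univ.image y = e).card := by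
    intro e he
    have hc : Fintype.card (Fin 5 ↪ e) = 120 := by
      rw [Fintype.card_embedding_eq, Fintype.card_coe, h5 e he, Fintype.card_fin]
      rfl
    rw [← hc, ← Finset.card_univ]
    refine Finset.card_le_card_of_injOn (fun f i => (f i : V)) ?_ ?_
    · intro f _
      have hx : univ.image (fun i => ((f i : e) : V)) = e := by
        apply Finset.eq_of_subset_of_card_le
        · intro t ht
          rw [Finset.mem_image] at ht
          obtain ⟨i, -, rfl⟩ := ht
          exact (f i).2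
        · rw [card_image_of_injective _ (fun a b hab => f.injective (Subtype.ext hab)), card_univ,
            Fintype.card_fin, h5 e he]
      simp only [coe_filter, mem_filter, mem_univ, true_and, Set.mem_setOf_eq]
      exact ⟨by rw [hx]; exact he, hx⟩
    · intro f _ g _ hfg
      apply DFunLike.ext
      intro i
      exact Subtype.ext (congrFun hfg i)
  rw [Finset.card_eq_sum_card_fiberwise (f := fun y : Fin 5 → V => univ.image y)
    (t := G) (by intro x hx; simpa using hx)]
  calc 120 * G.card = ∑ e ∈ G, 120 := by rw [sum_const, smul_eq_mul, mul_comm]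
    _ ≤ _ := sum_le_sum h1

theorem N_sum (G : Finset (Finset V)) (h5 : ∀ A ∈ G, A.card = 5) :
    ∑ y : Fin 5 → V, (N G y : ℤ) + 120 * (G.card : ℤ) ≤ (Fintype.card V : ℤ) ^ 5 := by
  have h1 := orders_le G h5
  have h2 : ∀ y : Fin 5 → V, (N G y : ℤ) + (if univ.image y ∈ G then 1 else 0) = 1 := by
    intro y; unfold N; split_ifs <;> simp
  have h3 : ∑ y : Fin 5 → V, ((N G y : ℤ) + (if univ.image y ∈ G then 1 else 0))
      = (Fintype.card V : ℤ) ^ 5 := by
    rw [sum_congr rfl fun y _ => h2 y, sum_const, card_univ, Fintype.card_fun, Fintype.card_fin]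
    simp
  rw [sum_add_distrib] at h3
  have h4 : ∑ y : Fin 5 → V, (if univ.image y ∈ G then (1 : ℤ) else 0)
      = ((univ.filter fun y : Fin 5 → V => univ.image y ∈ G).card : ℤ) := by
    rw [card_filter]; push_cast; rfl
  rw [h4] at h3
  have h6 : (120 * G.card : ℤ) ≤ ((univ.filter fun y : Fin 5 → V => univ.image y ∈ G).card : ℤ) := by
    exact_mod_cast h1
  linarith

end

theorem card_le {n : ℕ} (hn : 0 < n) (G : Finset (Finset (Fin n))) (h5 : ∀ A ∈ G, A.card = 5)
    (hK : ¬ HasClique G 5 6) : 120 * (G.card : ℝ) ≤ 0.76742 * (n : ℝ) ^ 5 := by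
  have h1 := avg G (by rw [Fintype.card_fin]; exact hn) (cover h5 hK)
  have h2 := N_sum G h5
  rw [Fintype.card_fin] at h1 h2
  have h3 : 100000 * (120 * (G.card : ℤ)) ≤ 76742 * (n : ℤ) ^ 5 := by linarith
  have h4 : (100000 : ℝ) * (120 * (G.card : ℝ)) ≤ 76742 * (n : ℝ) ^ 5 := by exact_mod_cast h3
  linarith

theorem ex_le {n : ℕ} (hn : 0 < n) : 120 * (ex n 5 6 : ℝ) ≤ 0.76742 * (n : ℝ) ^ 5 := by
  classical
  by_contra hcon
  push Not at hcon
  have h0 : ∀ G ∈ ((((univ : Finset (Fin n)).powersetCard 5).powerset).filter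
      (fun G => ¬ HasClique G 5 6)), 120 * (G.card : ℝ) ≤ 0.76742 * (n : ℝ) ^ 5 := by
    intro G hG
    rw [mem_filter, mem_powerset] at hG
    exact card_le hn G (fun A hA => (mem_powersetCard.mp (hG.1 hA)).2) hG.2
  have hne : ((((univ : Finset (Fin n)).powersetCard 5).powerset).filter
      (fun G => ¬ HasClique G 5 6)).Nonempty := by
    refine ⟨∅, ?_⟩
    rw [mem_filter, mem_powerset]
    refine ⟨empty_subset _, ?_⟩
    rintro ⟨A, hA, hs⟩
    have : (A.powersetCard 5).Nonempty := powersetCard_nonempty.mpr (by omega)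
    obtain ⟨x, hx⟩ := this
    exact absurd (hs hx) (by simp)
  obtain ⟨G, hG, he⟩ := Finset.exists_mem_eq_sup _ hne Finset.card
  have h1 := h0 G hG
  have h2 : ex n 5 6 = G.card := by
    unfold ex
    rw [← he]
  rw [h2] at hcon
  linarith

/-- `120 C(n,5) / n^5` tends to one -/
theorem choose_five_tendsto :
    Tendsto (fun n : ℕ => (120 * (n.choose 5 : ℝ)) / (n : ℝ) ^ 5) atTop (𝓝 1) := by
  have h1 : Tendsto (fun n : ℕ => (1 - 1 * (n : ℝ)⁻¹) * (1 - 2 * (n : ℝ)⁻¹) * (1 - 3 * (n : ℝ)⁻¹) * (1 - 4 * (n : ℝ)⁻¹)) atTop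
      (𝓝 ((1 - 1 * 0) * (1 - 2 * 0) * (1 - 3 * 0) * (1 - 4 * 0))) := by
    have h := tendsto_inv_atTop_nhds_zero_nat (𝕜 := ℝ)
    exact (((tendsto_const_nhds.sub (h.const_mul 1)).mul (tendsto_const_nhds.sub (h.const_mul 2))).mul
      (tendsto_const_nhds.sub (h.const_mul 3))).mul (tendsto_const_nhds.sub (h.const_mul 4))
  have e : ((1 - 1 * 0) * (1 - 2 * 0) * (1 - 3 * 0) * (1 - 4 * 0) : ℝ) = 1 := by norm_num
  rw [e] at h1
  refine h1.congr' ?_
  filter_upwards [eventually_ge_atTop 5] with n hn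
  have hn' : (n : ℝ) ≠ 0 := by positivity
  have hc : 120 * (n.choose 5 : ℝ) = (n : ℝ) * (n - 1) * (n - 2) * (n - 3) * (n - 4) := by
    have h2 : n.descFactorial 5 = 120 * n.choose 5 := by
      rw [Nat.descFactorial_eq_factorial_mul_choose]; rfl
    have h3 : ((n.descFactorial 5 : ℕ) : ℝ) = (n : ℝ) * (n - 1) * (n - 2) * (n - 3) * (n - 4) := by
      obtain ⟨m, rfl⟩ := Nat.exists_eq_add_of_le hn
      simp only [Nat.descFactorial, Nat.add_sub_cancel_left]
      have a1 : 5 + m - 0 = m + 5 := by omega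
      have a2 : 5 + m - 1 = m + 4 := by omega
      have a3 : 5 + m - 2 = m + 3 := by omega
      have a4 : 5 + m - 3 = m + 2 := by omega
      have a5 : 5 + m - 4 = m + 1 := by omega
      rw [a1, a2, a3, a4, a5]
      push_cast
      ring
    rw [← h3, h2]; push_cast; ring
  rw [hc]
  field_simp

/-- upper bounds for the Turán density from upper bounds for the Turán function -/
theorem density_le {y : ℝ} (h : ∀ n : ℕ, 0 < n → 120 * (ex n 5 6 : ℝ) ≤ y * (n : ℝ) ^ 5) :
    turanDensity 5 6 ≤ y := by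
  have h1 := (ratio_tendsto 5 6).mul choose_five_tendsto
  rw [mul_one] at h1
  refine le_of_tendsto h1 ?_
  filter_upwards [eventually_ge_atTop 5] with n hn
  have hn' : (0 : ℝ) < (n : ℝ) ^ 5 := by positivity
  have hc : (0 : ℝ) < (n.choose 5 : ℝ) := by exact_mod_cast Nat.choose_pos hn
  have e : (ex n 5 6 : ℝ) / (n.choose 5 : ℝ) * (120 * (n.choose 5 : ℝ) / (n : ℝ) ^ 5)
      = 120 * (ex n 5 6 : ℝ) / (n : ℝ) ^ 5 := by
    field_simp
  rw [e, div_le_iff₀ hn']
  exact h n (by omega)

theorem main : turanDensity 5 6 ≤ 0.76742 := density_le fun n hn => ex_le hn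

end Pool.Agent.W969.K65
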