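import Pool.Agent.W969.K65.Cert

/-! The check of all graphs on seven vertices with nonincreasing degrees. -/

set_option autoImplicit false
set_option maxRecDepth 100000

namespace Pool.Agent.W969.K65

def B2 (f : ℕ → Bool) : Bool := and (f 0) (f 1)

def leaf (b01 b02 b03 b04 b05 b06 b12 b13 b14 b15 b16 b23 b24 b25 b26 b34 b35 b36 b45 b46 b56 d0 d1 d2 d3 d4 d5 d6 : ℕ) : Bool :=
  Nat.ble (Nat.add 97683600000 (Nat.mul 42 (Nat.add (lk b01 (Nat.sub d0 b01) (Nat.sub d1 b01) (Nat.add (Nat.mul b02 b12) (Nat.add (Nat.mul b03 b13) (Nat.add (Nat.mul b04 b14) (Nat.add (Nat.mul b05 b15) (Nat.mul b06 b16)))))) (Nat.add (lk b02 (Nat.sub d0 b02) (Nat.sub d2 b02) (Nat.add (Nat.mul b01 b12) (Nat.add (Nat.mul b03 b23) (Nat.add (Nat.mul b04 b24) (Nat.add (Nat.mul b05 b25) (Nat.mul b06 b26)))))) (Nat.add (lk b03 (Nat.sub d0 b03) (Nat.sub d3 b03) (Nat.add (Nat.mul b01 b13) (Nat.add (Nat.mul b02 b23) (Nat.add (Nat.mul b04 b34) (Nat.add (Nat.mul b05 b35) (Nat.mul b06 b36))))))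 (Nat.add (lk b04 (Nat.sub d0 b04) (Nat.sub d4 b04) (Nat.add (Nat.mul b01 b14) (Nat.add (Nat.mul b02 b24) (Nat.add (Nat.mul b03 b34) (Nat.add (Nat.mul b05 b45) (Nat.mul b06 b46)))))) (Nat.add (lk b05 (Nat.sub d0 b05) (Nat.sub d5 b05) (Nat.add (Nat.mul b01 b15) (Nat.add (Nat.mul b02 b25) (Nat.add (Nat.mul b03 b35) (Nat.add (Nat.mul b04 b45) (Nat.mul b06 b56)))))) (Nat.add (lk b06 (Nat.sub d0 b06) (Nat.sub d6 b06) (Nat.add (Nat.mul b01 b16) (Nat.add (Nat.mul b02 b26) (Nat.add (Nat.mul b03 b36) (Nat.add (Nat.mul b04 b46) (Nat.mul b05 b56)))))) (Nat.add (lk b12 (Nat.sub d1 b12) (Nat.sub d2 b12) (Nat.add (Nat.mul b01 b02) (Nat.add (Nat.mul b13 b23) (Nat.add (Nat.mul b14 b24) (Nat.add (Nat.mul b15 b25) (Nat.mul b16 b26)))))) (Nat.add (lk b13 (Nat.sub d1 b13) (Nat.sub d3 b13) (Nat.add (Nat.mul b01 b03) (Nat.add (Nat.mul b12 b23) (Nat.add (Nat.mul b14 b34) (Nat.add (Nat.mul b15 b35) (Nat.mul b16 b36)))))) (Nat.add (lk b14 (Nat.sub d1 b14) (Nat.sub d4 b14)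 (Nat.add (Nat.mul b01 b04) (Nat.add (Nat.mul b12 b24) (Nat.add (Nat.mul b13 b34) (Nat.add (Nat.mul b15 b45) (Nat.mul b16 b46)))))) (Nat.add (lk b15 (Nat.sub d1 b15) (Nat.sub d5 b15) (Nat.add (Nat.mul b01 b05) (Nat.add (Nat.mul b12 b25) (Nat.add (Nat.mul b13 b35) (Nat.add (Nat.mul b14 b45) (Nat.mul b16 b56)))))) (Nat.add (lk b16 (Nat.sub d1 b16) (Nat.sub d6 b16) (Nat.add (Nat.mul b01 b06) (Nat.add (Nat.mul b12 b26) (Nat.add (Nat.mul b13 b36) (Nat.add (Nat.mul b14 b46) (Nat.mul b15 b56)))))) (Nat.add (lk b23 (Nat.sub d2 b23) (Nat.sub d3 b23) (Nat.add (Nat.mul b02 b03) (Nat.add (Nat.mul b12 b13) (Nat.add (Nat.mul b24 b34) (Nat.add (Nat.mul b25 b35) (Nat.mul b26 b36)))))) (Nat.add (lk b24 (Nat.sub d2 b24) (Nat.sub d4 b24) (Nat.add (Nat.mul b02 b04) (Nat.add (Nat.mul b12 b14) (Nat.add (Nat.mul b23 b34) (Nat.add (Nat.mul b25 b45) (Nat.mul b26 b46)))))) (Nat.add (lk b25 (Nat.sub d2 b25) (Nat.sub d5 b25) (Nat.add (Nat.mul b02 b05) (Nat.add (Nat.mul b12 b15)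 (Nat.add (Nat.mul b23 b35) (Nat.add (Nat.mul b24 b45) (Nat.mul b26 b56)))))) (Nat.add (lk b26 (Nat.sub d2 b26) (Nat.sub d6 b26) (Nat.add (Nat.mul b02 b06) (Nat.add (Nat.mul b12 b16) (Nat.add (Nat.mul b23 b36) (Nat.add (Nat.mul b24 b46) (Nat.mul b25 b56)))))) (Nat.add (lk b34 (Nat.sub d3 b34) (Nat.sub d4 b34) (Nat.add (Nat.mul b03 b04) (Nat.add (Nat.mul b13 b14) (Nat.add (Nat.mul b23 b24) (Nat.add (Nat.mul b35 b45) (Nat.mul b36 b46)))))) (Nat.add (lk b35 (Nat.sub d3 b35) (Nat.sub d5 b35) (Nat.add (Nat.mul b03 b05) (Nat.add (Nat.mul b13 b15) (Nat.add (Nat.mul b23 b25) (Nat.add (Nat.mul b34 b45) (Nat.mul b36 b56)))))) (Nat.add (lk b36 (Nat.sub d3 b36) (Nat.sub d6 b36) (Nat.add (Nat.mul b03 b06) (Nat.add (Nat.mul b13 b16) (Nat.add (Nat.mul b23 b26) (Nat.add (Nat.mul b34 b46) (Nat.mul b35 b56)))))) (Nat.add (lk b45 (Nat.sub d4 b45) (Nat.sub d5 b45) (Nat.add (Nat.mul b04 b05) (Nat.add (Nat.mul b14 b15) (Nat.add (Nat.mul b24 b25) (Nat.add (Nat.mul b34 b35)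 (Nat.mul b46 b56)))))) (Nat.add (lk b46 (Nat.sub d4 b46) (Nat.sub d6 b46) (Nat.add (Nat.mul b04 b06) (Nat.add (Nat.mul b14 b16) (Nat.add (Nat.mul b24 b26) (Nat.add (Nat.mul b34 b36) (Nat.mul b45 b56)))))) (lk b56 (Nat.sub d5 b56) (Nat.sub d6 b56) (Nat.add (Nat.mul b05 b06) (Nat.add (Nat.mul b15 b16) (Nat.add (Nat.mul b25 b26) (Nat.add (Nat.mul b35 b36) (Nat.mul b45 b46)))))))))))))))))))))))))))) (Nat.add (Nat.mul 10000000000 (Nat.add d0 (Nat.add d1 (Nat.add d2 (Nat.add d3 (Nat.add d4 (Nat.add d5 d6))))))) 8820000000000)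

def part (b01 b02 b03 b04 b05 b06 : ℕ) : Bool :=
  B2 fun b12 => B2 fun b13 => B2 fun b14 => B2 fun b15 => B2 fun b16 => cond (Nat.ble (Nat.add b01 (Nat.add b12 (Nat.add b13 (Nat.add b14 (Nat.add b15 b16))))) (Nat.add b01 (Nat.add b02 (Nat.add b03 (Nat.add b04 (Nat.add b05 b06)))))) (B2 fun b23 => B2 fun b24 => B2 fun b25 => B2 fun b26 => cond (Nat.ble (Nat.add b02 (Nat.add b12 (Nat.add b23 (Nat.add b24 (Nat.add b25 b26))))) (Nat.add b01 (Nat.add b12 (Nat.add b13 (Nat.add b14 (Nat.add b15 b16)))))) (B2 fun b34 => B2 fun b35 => B2 fun b36 => cond (Nat.ble (Nat.add b03 (Nat.add b13 (Nat.add b23 (Nat.add b34 (Nat.add b35 b36))))) (Nat.add b02 (Nat.add b12 (Nat.add b23 (Nat.add b24 (Nat.add b25 b26)))))) (B2 fun b45 => B2 fun b46 => cond (Nat.ble (Nat.add b04 (Nat.add b14 (Nat.add b24 (Nat.add b34 (Nat.add b45 b46))))) (Nat.add b03 (Nat.add b13 (Nat.add b23 (Nat.add b34 (Nat.add b35 b36)))))) (B2 fun b56 => cond (Nat.ble (Nat.add b05 (Nat.add b15 (Nat.add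 b25 (Nat.add b35 (Nat.add b45 b56))))) (Nat.add b04 (Nat.add b14 (Nat.add b24 (Nat.add b34 (Nat.add b45 b46)))))) (cond (Nat.ble (Nat.add b06 (Nat.add b16 (Nat.add b26 (Nat.add b36 (Nat.add b46 b56))))) (Nat.add b05 (Nat.add b15 (Nat.add b25 (Nat.add b35 (Nat.add b45 b56)))))) (cond (Nat.ble 1 (Nat.add b06 (Nat.add b16 (Nat.add b26 (Nat.add b36 (Nat.add b46 b56)))))) (leaf b01 b02 b03 b04 b05 b06 b12 b13 b14 b15 b16 b23 b24 b25 b26 b34 b35 b36 b45 b46 b56 (Nat.add b01 (Nat.add b02 (Nat.add b03 (Nat.add b04 (Nat.add b05 b06))))) (Nat.add b01 (Nat.add b12 (Nat.add b13 (Nat.add b14 (Nat.add b15 b16))))) (Nat.add b02 (Nat.add b12 (Nat.add b23 (Nat.add b24 (Nat.add b25 b26))))) (Nat.add b03 (Nat.add b13 (Nat.add b23 (Nat.add b34 (Nat.add b35 b36))))) (Nat.add b04 (Nat.add b14 (Nat.add b24 (Nat.add b34 (Nat.add b45 b46))))) (Nat.add b05 (Nat.add b15 (Nat.add b25 (Nat.add b35 (Nat.add b45 b56))))) (Nat.add b06 (Nat.add b16 (Nat.add b26 (Nat.add b36 (Nat.add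 b46 b56)))))) true) true) true) true) true) true) true

theorem part0 : part 0 0 0 0 0 0 = true := by decide +kernel
theorem part1 : part 1 0 0 0 0 0 = true := by decide +kernel
theorem part2 : part 0 1 0 0 0 0 = true := by decide +kernel
theorem part3 : part 1 1 0 0 0 0 = true := by decide +kernel
theorem part4 : part 0 0 1 0 0 0 = true := by decide +kernel
theorem part5 : part 1 0 1 0 0 0 = true := by decide +kernel
theorem part6 : part 0 1 1 0 0 0 = true := by decide +kernel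
theorem part7 : part 1 1 1 0 0 0 = true := by decide +kernel
theorem part8 : part 0 0 0 1 0 0 = true := by decide +kernel
theorem part9 : part 1 0 0 1 0 0 = true := by decide +kernel
theorem part10 : part 0 1 0 1 0 0 = true := by decide +kernel
theorem part11 : part 1 1 0 1 0 0 = true := by decide +kernel
theorem part12 : part 0 0 1 1 0 0 = true := by decide +kernel
theorem part13 : part 1 0 1 1 0 0 = true := by decide +kernel
theorem part14 : part 0 1 1 1 0 0 = true := by decide +kernel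
theorem part15 : part 1 1 1 1 0 0 = true := by decide +kernel
theorem part16 : part 0 0 0 0 1 0 = true := by decide +kernel
theorem part17 : part 1 0 0 0 1 0 = true := by decide +kernel
theorem part18 : part 0 1 0 0 1 0 = true := by decide +kernel
theorem part19 : part 1 1 0 0 1 0 = true := by decide +kernel
theorem part20 : part 0 0 1 0 1 0 = true := by decide +kernel
theorem part21 : part 1 0 1 0 1 0 = true := by decide +kernel
theorem part22 : part 0 1 1 0 1 0 = true := by decide +kernel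
theorem part23 : part 1 1 1 0 1 0 = true := by decide +kernel
theorem part24 : part 0 0 0 1 1 0 = true := by decide +kernel
theorem part25 : part 1 0 0 1 1 0 = true := by decide +kernel
theorem part26 : part 0 1 0 1 1 0 = true := by decide +kernel
theorem part27 : part 1 1 0 1 1 0 = true := by decide +kernel
theorem part28 : part 0 0 1 1 1 0 = true := by decide +kernel
theorem part29 : part 1 0 1 1 1 0 = true := by decide +kernel
theorem part30 : part 0 1 1 1 1 0 = true := by decide +kernel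
theorem part31 : part 1 1 1 1 1 0 = true := by decide +kernel
theorem part32 : part 0 0 0 0 0 1 = true := by decide +kernel
theorem part33 : part 1 0 0 0 0 1 = true := by decide +kernel
theorem part34 : part 0 1 0 0 0 1 = true := by decide +kernel
theorem part35 : part 1 1 0 0 0 1 = true := by decide +kernel
theorem part36 : part 0 0 1 0 0 1 = true := by decide +kernel
theorem part37 : part 1 0 1 0 0 1 = true := by decide +kernel
theorem part38 : part 0 1 1 0 0 1 = true := by decide +kernel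
theorem part39 : part 1 1 1 0 0 1 = true := by decide +kernel
theorem part40 : part 0 0 0 1 0 1 = true := by decide +kernel
theorem part41 : part 1 0 0 1 0 1 = true := by decide +kernel
theorem part42 : part 0 1 0 1 0 1 = true := by decide +kernel
theorem part43 : part 1 1 0 1 0 1 = true := by decide +kernel
theorem part44 : part 0 0 1 1 0 1 = true := by decide +kernel
theorem part45 : part 1 0 1 1 0 1 = true := by decide +kernel
theorem part46 : part 0 1 1 1 0 1 = true := by decide +kernel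
theorem part47 : part 1 1 1 1 0 1 = true := by decide +kernel
theorem part48 : part 0 0 0 0 1 1 = true := by decide +kernel
theorem part49 : part 1 0 0 0 1 1 = true := by decide +kernel
theorem part50 : part 0 1 0 0 1 1 = true := by decide +kernel
theorem part51 : part 1 1 0 0 1 1 = true := by decide +kernel
theorem part52 : part 0 0 1 0 1 1 = true := by decide +kernel
theorem part53 : part 1 0 1 0 1 1 = true := by decide +kernel
theorem part54 : part 0 1 1 0 1 1 = true := by decide +kernel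
theorem part55 : part 1 1 1 0 1 1 = true := by decide +kernel
theorem part56 : part 0 0 0 1 1 1 = true := by decide +kernel
theorem part57 : part 1 0 0 1 1 1 = true := by decide +kernel
theorem part58 : part 0 1 0 1 1 1 = true := by decide +kernel
theorem part59 : part 1 1 0 1 1 1 = true := by decide +kernel
theorem part60 : part 0 0 1 1 1 1 = true := by decide +kernel
theorem part61 : part 1 0 1 1 1 1 = true := by decide +kernel
theorem part62 : part 0 1 1 1 1 1 = true := by decide +kernel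
theorem part63 : part 1 1 1 1 1 1 = true := by decide +kernel

end Pool.Agent.W969.K65
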