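import Pool.Agent.W969.K65.Graph

/-! Averaging the inequality over all 7-tuples of vertices of a 5-graph. -/

set_option autoImplicit false
set_option linter.all false
set_option maxHeartbeats 1000000

open Finset

namespace Pool.Agent.W969.K65

section
variable {V : Type} [Fintype V] [DecidableEq V] (G : Finset (Finset V))

/-- indicator of the non-edges -/
def N (y : Fin 5 → V) : ℕ := if univ.image y ∈ G then 0 else 1

/-- the graph of the complements of the non-edges in a 7-tuple -/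
def hh (x : Fin 7 → V) (i j : Fin 7) : ℕ :=
  if i = j then 0 else if (univ.filter (fun t => t ≠ i ∧ t ≠ j)).image x ∈ G then 0 else 1

theorem hh_gr (x : Fin 7 → V) : Gr (hh G x) where
  s i j := by
    unfold hh
    by_cases e : i = j
    · rw [if_pos e, if_pos e.symm]
    · rw [if_neg e, if_neg (Ne.symm e)]
      simp only [and_comm]
  b i j := by
    unfold hh Bt
    split_ifs <;> simp
  d i := by
    unfold hh
    rw [if_pos rfl]

theorem hh_perm (x : Fin 7 → V) (σ : Equiv.Perm (Fin 7)) (i j : Fin 7) :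
    hh G (fun t => x (σ t)) i j = hh G x (σ i) (σ j) := by
  unfold hh
  simp only [σ.injective.eq_iff]
  have : (univ.filter (fun t => t ≠ i ∧ t ≠ j)).image (fun t => x (σ t))
      = (univ.filter (fun t => t ≠ σ i ∧ t ≠ σ j)).image x := by
    ext v
    simp only [mem_image, mem_filter, mem_univ, true_and]
    constructor
    · rintro ⟨t, ⟨h1, h2⟩, rfl⟩
      exact ⟨σ t, ⟨fun e => h1 (σ.injective e), fun e => h2 (σ.injective e)⟩, rfl⟩
    · rintro ⟨t, ⟨h1, h2⟩, rfl⟩
      refine ⟨σ.symm t, ⟨fun e => h1 ?_, fun e => h2 ?_⟩, by rw [Equiv.apply_symm_apply]⟩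
      · rw [← e, Equiv.apply_symm_apply]
      · rw [← e, Equiv.apply_symm_apply]
  rw [this]

/-- the tuple `a, b, y` -/
def X (a b : V) (y : Fin 5 → V) : Fin 7 → V := Fin.cons a (Fin.cons b y)

theorem X_zero (a b : V) (y : Fin 5 → V) : X a b y 0 = a := rfl
theorem X_one (a b : V) (y : Fin 5 → V) : X a b y 1 = b := rfl
theorem X_ss (a b : V) (y : Fin 5 → V) (p : Fin 5) : X a b y p.succ.succ = y p := rfl

theorem all7 {P : Fin 7 → Prop} : (∃ t, P t) ↔ P 0 ∨ P 1 ∨ ∃ p : Fin 5, P p.succ.succ := by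
  constructor
  · rintro ⟨t, ht⟩
    refine Fin.cases (fun h => Or.inl h) (fun s => ?_) t ht
    refine Fin.cases (fun h => Or.inr (Or.inl h)) (fun p h => Or.inr (Or.inr ⟨p, h⟩)) s
  · rintro (h | h | ⟨p, h⟩)
    exacts [⟨_, h⟩, ⟨_, h⟩, ⟨_, h⟩]

theorem ss_inj {p q : Fin 5} : (p.succ.succ : Fin 7) = q.succ.succ ↔ p = q := by
  rw [Fin.succ_inj, Fin.succ_inj]

theorem ss_ne_one (p : Fin 5) : (p.succ.succ : Fin 7) ≠ 1 := by
  intro h
  have := congrArg Fin.val h
  simp [Fin.val_succ] at this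

theorem ss_ne_zero (p : Fin 5) : (p.succ.succ : Fin 7) ≠ 0 := Fin.succ_ne_zero _

theorem h01 (a b : V) (y : Fin 5 → V) : hh G (X a b y) 0 1 = N G y := by
  unfold hh N
  rw [if_neg (by decide)]
  have : (univ.filter (fun t : Fin 7 => t ≠ 0 ∧ t ≠ 1)).image (X a b y) = univ.image y := by
    ext v
    simp only [mem_image, mem_filter, mem_univ, true_and]
    rw [all7]
    simp only [X_zero, X_one, X_ss, ne_eq, not_true_eq_false, false_and, and_false, false_or,
      ss_ne_one, ss_ne_zero, not_false_eq_true, true_and]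
  rw [this]

theorem h0p (a b : V) (y : Fin 5 → V) (p : Fin 5) :
    hh G (X a b y) 0 p.succ.succ = N G (Function.update y p b) := by
  unfold hh N
  rw [if_neg (ss_ne_zero p).symm]
  have : (univ.filter (fun t : Fin 7 => t ≠ 0 ∧ t ≠ p.succ.succ)).image (X a b y)
      = univ.image (Function.update y p b) := by
    ext v
    simp only [mem_image, mem_filter, mem_univ, true_and]
    rw [all7]
    simp only [X_zero, X_one, X_ss, ne_eq, not_true_eq_false, false_and, false_or,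
      ss_ne_zero, not_false_eq_true, true_and, ss_inj, (ss_ne_one p).symm, one_ne_zero]
    constructor
    · rintro (h | ⟨q, h1, h2⟩)
      · exact ⟨p, by rw [Function.update_self]; exact h⟩
      · exact ⟨q, by rw [Function.update_of_ne h1]; exact h2⟩
    · rintro ⟨q, h⟩
      by_cases e : q = p
      · left
        rw [e, Function.update_self] at h
        exact h
      · right
        rw [Function.update_of_ne e] at h
        exact ⟨q, e, h⟩
  rw [this]

theorem h1p (a b : V) (y : Fin 5 → V) (p : Fin 5) :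
    hh G (X a b y) 1 p.succ.succ = N G (Function.update y p a) := by
  unfold hh N
  rw [if_neg (ss_ne_one p).symm]
  have : (univ.filter (fun t : Fin 7 => t ≠ 1 ∧ t ≠ p.succ.succ)).image (X a b y)
      = univ.image (Function.update y p a) := by
    ext v
    simp only [mem_image, mem_filter, mem_univ, true_and]
    rw [all7]
    simp only [X_zero, X_one, X_ss, ne_eq, not_true_eq_false, false_and, false_or,
      ss_ne_one, not_false_eq_true, true_and, ss_inj, (ss_ne_zero p).symm, zero_ne_one]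
    constructor
    · rintro (h | ⟨q, h1, h2⟩)
      · exact ⟨p, by rw [Function.update_self]; exact h⟩
      · exact ⟨q, by rw [Function.update_of_ne h1]; exact h2⟩
    · rintro ⟨q, h⟩
      by_cases e : q = p
      · left
        rw [e, Function.update_self] at h
        exact h
      · right
        rw [Function.update_of_ne e] at h
        exact ⟨q, e, h⟩
  rw [this]

/-- number of non-edges through the five replacements of one coordinate -/
def mm (y : Fin 5 → V) (a : V) : ℕ := ∑ p : Fin 5, N G (Function.update y p a)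

theorem sum7 (f : Fin 7 → ℕ) : ∑ t, f t = f 0 + (f 1 + ∑ p : Fin 5, f p.succ.succ) := by
  rw [Fin.sum_univ_succ, Fin.sum_univ_succ]
  rfl

theorem deg0 (a b : V) (y : Fin 5 → V) :
    deg (hh G (X a b y)) 0 - hh G (X a b y) 0 1 = mm G y b := by
  unfold deg mm
  rw [sum7, (hh_gr G _).d 0]
  simp only [h0p]
  omega

theorem deg1 (a b : V) (y : Fin 5 → V) :
    deg (hh G (X a b y)) 1 - hh G (X a b y) 0 1 = mm G y a := by
  unfold deg mm
  rw [sum7, (hh_gr G _).d 1, (hh_gr G _).s 1 0]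
  simp only [h1p]
  omega

theorem cod01 (a b : V) (y : Fin 5 → V) :
    cod (hh G (X a b y)) 0 1 = ∑ p : Fin 5, N G (Function.update y p b) * N G (Function.update y p a) := by
  unfold cod
  rw [sum7, (hh_gr G _).d 0, (hh_gr G _).d 1]
  simp only [h0p, h1p]
  omega

def e7 (V : Type) : (Fin 7 → V) ≃ V × V × (Fin 5 → V) where
  toFun x := (x 0, x 1, fun p => x p.succ.succ)
  invFun q := X q.1 q.2.1 q.2.2
  left_inv x := by
    funext i
    refine Fin.cases rfl (fun s => ?_) i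
    refine Fin.cases rfl (fun p => rfl) s
  right_inv q := rfl

theorem conv7 (f : (Fin 7 → V) → ℤ) : ∑ x, f x = ∑ a, ∑ b, ∑ y, f (X a b y) := by
  rw [← Equiv.sum_comp (e7 V).symm]
  simp only [Fintype.sum_prod_type]
  rfl

theorem perm_sum (f : (Fin 7 → V) → ℤ) (σ : Equiv.Perm (Fin 7)) :
    ∑ x : Fin 7 → V, f (fun t => x (σ t)) = ∑ x, f x := by
  rw [← Equiv.sum_comp (Equiv.arrowCongr σ.symm (Equiv.refl V)) f]
  rfl

theorem exists_perm : ∀ i j : Fin 7, i ≠ j → ∃ σ : Equiv.Perm (Fin 7), σ 0 = i ∧ σ 1 = j := by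
  intro i j hij
  refine ⟨Equiv.swap 0 i * Equiv.swap 1 (Equiv.swap 0 i j), ?_⟩
  revert i j
  decide

/-! ### The squares -/

theorem sq1 (u : V → ℤ) : 0 ≤ ∑ a, ∑ b, u b * u a := by
  have : ∑ a, ∑ b, u b * u a = (∑ a, u a) * (∑ a, u a) := by
    rw [sum_mul_sum]
    exact sum_congr rfl fun a _ => sum_congr rfl fun b _ => mul_comm _ _
  rw [this]
  exact mul_self_nonneg _

theorem pairsum (f g : Fin 5 → ℤ) :
    ∑ p, ∑ q, (f p - f q) * (g p - g q) = 2 * (5 * (∑ p, f p * g p) - (∑ p, f p) * (∑ p, g p)) := by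
  simp only [Fin.sum_univ_five]
  ring

theorem sq2 (u : V → ℤ) (χ : V → Fin 5 → ℤ) :
    0 ≤ ∑ a, ∑ b, u b * u a * (5 * (∑ p, χ b p * χ a p) - (∑ p, χ b p) * (∑ p, χ a p)) := by
  have h : 2 * ∑ a, ∑ b, u b * u a * (5 * (∑ p, χ b p * χ a p) - (∑ p, χ b p) * (∑ p, χ a p))
      = ∑ p, ∑ q, ((∑ a, u a * (χ a p - χ a q)) * (∑ a, u a * (χ a p - χ a q))) := by
    have e : ∀ a b, 2 * (u b * u a * (5 * (∑ p, χ b p * χ a p) - (∑ p, χ b p) * (∑ p, χ a p)))
        = ∑ p, ∑ q, (u b * (χ b p - χ b q)) * (u a * (χ a p - χ a q)) := by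
      intro a b
      have := pairsum (χ b) (χ a)
      calc _ = u b * u a * (2 * (5 * (∑ p, χ b p * χ a p) - (∑ p, χ b p) * (∑ p, χ a p))) := by ring
        _ = u b * u a * ∑ p, ∑ q, (χ b p - χ b q) * (χ a p - χ a q) := by rw [this]
        _ = _ := by
          rw [mul_sum]
          refine sum_congr rfl fun p _ => ?_
          rw [mul_sum]
          refine sum_congr rfl fun q _ => ?_
          ring
    have e0 : 2 * ∑ a, ∑ b, u b * u a * (5 * (∑ p, χ b p * χ a p) - (∑ p, χ b p) * (∑ p, χ a p))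
        = ∑ a, ∑ b, ∑ p, ∑ q, (u b * (χ b p - χ b q)) * (u a * (χ a p - χ a q)) := by
      rw [mul_sum]
      refine sum_congr rfl fun a _ => ?_
      rw [mul_sum]
      exact sum_congr rfl fun b _ => e a b
    rw [e0]
    calc ∑ a, ∑ b, ∑ p, ∑ q, (u b * (χ b p - χ b q)) * (u a * (χ a p - χ a q))
        = ∑ a, ∑ p, ∑ b, ∑ q, (u b * (χ b p - χ b q)) * (u a * (χ a p - χ a q)) :=
          sum_congr rfl fun a _ => sum_comm
      _ = ∑ p, ∑ a, ∑ b, ∑ q, (u b * (χ b p - χ b q)) * (u a * (χ a p - χ a q)) := sum_comm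
      _ = ∑ p, ∑ a, ∑ q, ∑ b, (u b * (χ b p - χ b q)) * (u a * (χ a p - χ a q)) :=
          sum_congr rfl fun p _ => sum_congr rfl fun a _ => sum_comm
      _ = ∑ p, ∑ q, ∑ a, ∑ b, (u b * (χ b p - χ b q)) * (u a * (χ a p - χ a q)) :=
          sum_congr rfl fun p _ => sum_comm
      _ = _ := by
          refine sum_congr rfl fun p _ => sum_congr rfl fun q _ => ?_
          rw [sum_mul_sum]
          exact sum_congr rfl fun a _ => sum_congr rfl fun b _ => mul_comm _ _
  have h2 : 0 ≤ ∑ p : Fin 5, ∑ q : Fin 5, ((∑ a, u a * (χ a p - χ a q)) * (∑ a, u a * (χ a p - χ a q))) :=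
    sum_nonneg fun p _ => sum_nonneg fun q _ => mul_self_nonneg _
  linarith

theorem sos (s : ℕ) (χ : V → Fin 5 → ℕ) :
    0 ≤ ∑ a, ∑ b, fz s (∑ p, χ b p) (∑ p, χ a p) (∑ p, χ b p * χ a p) := by
  have e : ∀ a b, fz s (∑ p, χ b p) (∑ p, χ a p) (∑ p, χ b p * χ a p) =
      (c0 s 0 (∑ p, χ b p) * c0 s 0 (∑ p, χ a p) + c0 s 1 (∑ p, χ b p) * c0 s 1 (∑ p, χ a p)
      + c0 s 2 (∑ p, χ b p) * c0 s 2 (∑ p, χ a p) + c0 s 3 (∑ p, χ b p) * c0 s 3 (∑ p, χ a p)
      + c0 s 4 (∑ p, χ b p) * c0 s 4 (∑ p, χ a p) + c0 s 5 (∑ p, χ b p) * c0 s 5 (∑ p, χ a p))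
      + (c1 s 0 (∑ p, χ b p) * c1 s 0 (∑ p, χ a p) *
          (5 * (∑ p, (χ b p : ℤ) * (χ a p : ℤ)) - (∑ p, (χ b p : ℤ)) * (∑ p, (χ a p : ℤ)))
      + c1 s 1 (∑ p, χ b p) * c1 s 1 (∑ p, χ a p) *
          (5 * (∑ p, (χ b p : ℤ) * (χ a p : ℤ)) - (∑ p, (χ b p : ℤ)) * (∑ p, (χ a p : ℤ)))
      + c1 s 2 (∑ p, χ b p) * c1 s 2 (∑ p, χ a p) *
          (5 * (∑ p, (χ b p : ℤ) * (χ a p : ℤ)) - (∑ p, (χ b p : ℤ)) * (∑ p, (χ a p : ℤ)))
      + c1 s 3 (∑ p, χ b p) * c1 s 3 (∑ p, χ a p) *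
          (5 * (∑ p, (χ b p : ℤ) * (χ a p : ℤ)) - (∑ p, (χ b p : ℤ)) * (∑ p, (χ a p : ℤ)))) := by
    intro a b
    unfold fz
    push_cast
    ring
  simp_rw [e, sum_add_distrib]
  have q0 := fun k => sq1 (fun a : V => c0 s k (∑ p, χ a p))
  have q1 := fun k => sq2 (fun a : V => c1 s k (∑ p, χ a p)) (fun a p => (χ a p : ℤ))
  have r0 := q0 0
  have r1 := q0 1
  have r2 := q0 2
  have r3 := q0 3
  have r4 := q0 4
  have r5 := q0 5
  have t0 := q1 0
  have t1 := q1 1
  have t2 := q1 2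
  have t3 := q1 3
  linarith

theorem FZ_nonneg {i j : Fin 7} (hij : i ≠ j) : 0 ≤ ∑ x : Fin 7 → V, FZ (hh G x) i j := by
  obtain ⟨σ, h0, h1⟩ := exists_perm i j hij
  have e : ∀ x : Fin 7 → V, FZ (hh G x) i j = FZ (hh G (fun t => x (σ t))) 0 1 := by
    intro x
    have : hh G (fun t => x (σ t)) = fun i j => hh G x (σ i) (σ j) := by
      funext i j; exact hh_perm G x σ i j
    rw [this]
    unfold FZ
    simp only [deg_perm, cod_perm, h0, h1]
  rw [sum_congr rfl fun x _ => e x, perm_sum (fun x => FZ (hh G x) 0 1) σ, conv7]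
  have e2 : ∀ a b y, FZ (hh G (X a b y)) 0 1 = fz (N G y) (∑ p : Fin 5, N G (Function.update y p b))
      (∑ p : Fin 5, N G (Function.update y p a))
      (∑ p : Fin 5, N G (Function.update y p b) * N G (Function.update y p a)) := by
    intro a b y
    unfold FZ
    rw [deg0, deg1, cod01, h01]
    rfl
  simp_rw [e2]
  have main : 0 ≤ ∑ y : Fin 5 → V, ∑ a, ∑ b, fz (N G y) (∑ p : Fin 5, N G (Function.update y p b))
      (∑ p : Fin 5, N G (Function.update y p a))
      (∑ p : Fin 5, N G (Function.update y p b) * N G (Function.update y p a)) :=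
    sum_nonneg fun y _ => sos (N G y) (fun a p => N G (Function.update y p a))
  refine le_of_le_of_eq main ?_
  rw [sum_comm]
  exact sum_congr rfl fun a _ => sum_comm

theorem hh_sum {i j : Fin 7} (hij : i ≠ j) :
    ∑ x : Fin 7 → V, (hh G x i j : ℤ) = (Fintype.card V : ℤ) ^ 2 * ∑ y, (N G y : ℤ) := by
  obtain ⟨σ, h0, h1⟩ := exists_perm i j hij
  have e : ∀ x : Fin 7 → V, (hh G x i j : ℤ) = (hh G (fun t => x (σ t)) 0 1 : ℤ) := by
    intro x
    rw [hh_perm, h0, h1]
  rw [sum_congr rfl fun x _ => e x, perm_sum (fun x => (hh G x 0 1 : ℤ)) σ, conv7]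
  simp only [h01, sum_const, card_univ, nsmul_eq_mul]
  ring

/-- the average -/
theorem avg (hn : 0 < Fintype.card V) (hc : ∀ (x : Fin 7 → V) (i : Fin 7), 1 ≤ deg (hh G x) i) :
    23258 * (Fintype.card V : ℤ) ^ 5 ≤ 100000 * ∑ y : Fin 5 → V, (N G y : ℤ) := by
  set n : ℤ := (Fintype.card V : ℤ) with hnn
  have hn' : (0 : ℤ) < n ^ 2 := by
    have : (0 : ℤ) < n := by rw [hnn]; exact_mod_cast hn
    positivity
  have A : 97683600000 * n ^ 7 ≤ ∑ x : Fin 7 → V, FF (hh G x) := by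
    calc 97683600000 * n ^ 7 = ∑ x : Fin 7 → V, (97683600000 : ℤ) := by
          rw [sum_const, card_univ, Fintype.card_fun, Fintype.card_fin, nsmul_eq_mul]
          push_cast
          rw [← hnn]; ring
      _ ≤ _ := sum_le_sum fun x _ => pointwise (hh_gr G x) (hc x)
  have B : ∑ x : Fin 7 → V, FF (hh G x) = ∑ i, ∑ j, ∑ x : Fin 7 → V, GG (hh G x) i j := by
    unfold FF
    rw [sum_comm]
    exact sum_congr rfl fun i _ => sum_comm
  have C : ∀ i j : Fin 7, ∑ x : Fin 7 → V, GG (hh G x) i j ≤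
      if i = j then 0 else 10000000000 * (n ^ 2 * ∑ y, (N G y : ℤ)) := by
    intro i j
    by_cases e : i = j
    · rw [if_pos e]
      refine le_of_eq ?_
      unfold GG
      simp [e]
    · rw [if_neg e, ← hh_sum G e]
      unfold GG
      simp only [if_neg e]
      rw [sum_sub_distrib, ← mul_sum, ← mul_sum]
      have := FZ_nonneg G e
      linarith
  have D : ∑ i : Fin 7, ∑ j : Fin 7, (if i = j then (0 : ℤ) else 10000000000 * (n ^ 2 * ∑ y, (N G y : ℤ)))
      = 42 * (10000000000 * (n ^ 2 * ∑ y, (N G y : ℤ))) := by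
    generalize 10000000000 * (n ^ 2 * ∑ y, (N G y : ℤ)) = z
    simp only [Fin.sum_univ_seven]
    simp (decide := true)
    ring
  have E : 97683600000 * n ^ 7 ≤ 42 * (10000000000 * (n ^ 2 * ∑ y, (N G y : ℤ))) := by
    rw [← D]
    calc _ ≤ _ := A
      _ = _ := B
      _ ≤ _ := sum_le_sum fun i _ => sum_le_sum fun j _ => C i j
  have F : n ^ 2 * (23258 * n ^ 5) ≤ n ^ 2 * (100000 * ∑ y : Fin 5 → V, (N G y : ℤ)) := by
    nlinarith
  exact le_of_mul_le_mul_left F hn'

end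
end Pool.Agent.W969.K65
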