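import Pool.Agent.W969.K65.Enum

/-! The inequality for all graphs on seven vertices without isolated vertices. -/

set_option autoImplicit false
set_option linter.all false
set_option maxRecDepth 100000
set_option maxHeartbeats 4000000

open Finset

namespace Pool.Agent.W969.K65

def Bt (x : ℕ) : Prop := x = 0 ∨ x = 1

theorem B2_true {f : ℕ → Bool} (h : B2 f = true) {b : ℕ} (hb : Bt b) : f b = true := by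
  unfold B2 at h
  rw [Bool.and_eq_true] at h
  rcases hb with rfl | rfl
  exacts [h.1, h.2]

theorem cond_tr {p q : Bool} (h : cond p q true = true) (hp : p = true) : q = true := by
  subst hp; exact h

/-- graphs on seven vertices -/
structure Gr (h : Fin 7 → Fin 7 → ℕ) : Prop where
  s : ∀ i j, h i j = h j i
  b : ∀ i j, Bt (h i j)
  d : ∀ i, h i i = 0

def deg (h : Fin 7 → Fin 7 → ℕ) (i : Fin 7) : ℕ := ∑ t, h i t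
def cod (h : Fin 7 → Fin 7 → ℕ) (i j : Fin 7) : ℕ := ∑ t, h i t * h j t

def FZ (h : Fin 7 → Fin 7 → ℕ) (i j : Fin 7) : ℤ :=
  fz (h i j) (deg h i - h i j) (deg h j - h i j) (cod h i j)

def GG (h : Fin 7 → Fin 7 → ℕ) (i j : Fin 7) : ℤ :=
  if i = j then 0 else 10000000000 * (h i j : ℤ) - 21 * FZ h i j

def FF (h : Fin 7 → Fin 7 → ℕ) : ℤ := ∑ i, ∑ j, GG h i j

theorem part_all {b01 b02 b03 b04 b05 b06 : ℕ} (h1 : Bt b01) (h2 : Bt b02) (h3 : Bt b03) (h4 : Bt b04)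
    (h5 : Bt b05) (h6 : Bt b06) : part b01 b02 b03 b04 b05 b06 = true := by
  rcases h1 with rfl | rfl <;> rcases h2 with rfl | rfl <;> rcases h3 with rfl | rfl <;>
    rcases h4 with rfl | rfl <;> rcases h5 with rfl | rfl <;> rcases h6 with rfl | rfl
  exacts [part0, part32, part16, part48, part8, part40, part24, part56, part4, part36, part20, part52, part12, part44, part28, part60, part2, part34, part18, part50, part10, part42, part26, part58, part6, part38, part22, part54, part14, part46, part30, part62, part1, part33, part17, part49, part9, part41, part25, part57, part5, part37, part21, part53, part13, part45, part29, part61, part3, part35, part19, part51, part11, part43, part27, part59, part7, part39, part23, part55, part15, part47, part31, part63]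

theorem deg_lt {h : Fin 7 → Fin 7 → ℕ} (hg : Gr h) (i : Fin 7) : deg h i < 8 := by
  have : deg h i ≤ ∑ _t : Fin 7, 1 := sum_le_sum fun t _ => by
    rcases hg.b i t with e | e <;> omega
  simp at this
  omega

theorem cod_lt {h : Fin 7 → Fin 7 → ℕ} (hg : Gr h) (i j : Fin 7) : cod h i j < 8 := by
  have : cod h i j ≤ ∑ _t : Fin 7, 1 := sum_le_sum fun t _ => by
    rcases hg.b i t with e | e <;> rcases hg.b j t with e' | e' <;> rw [e, e'] <;> norm_num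
  simp at this
  omega

theorem GG_eq {h : Fin 7 → Fin 7 → ℕ} (hg : Gr h) {i j : Fin 7} (hij : i ≠ j) :
    GG h i j = 10000000000 * (h i j : ℤ) - 21 *
      ((lk (h i j) (deg h i - h i j) (deg h j - h i j) (cod h i j) : ℤ) - 10000000000) := by
  have h1 := deg_lt hg i
  have h2 := deg_lt hg j
  have h3 := cod_lt hg i j
  have h4 : h i j < 2 := by rcases hg.b i j with e | e <;> omega
  rw [lk_eq h4 (by omega) (by omega) h3]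
  unfold GG FZ
  rw [if_neg hij]
  ring

theorem GG_comm {h : Fin 7 → Fin 7 → ℕ} (hg : Gr h) (i j : Fin 7) : GG h i j = GG h j i := by
  by_cases e : i = j
  · rw [e]
  · unfold GG FZ
    rw [if_neg e, if_neg (Ne.symm e), hg.s j i, fz_comm]
    have : cod h i j = cod h j i := sum_congr rfl fun t _ => mul_comm _ _
    rw [this]

theorem GG_self (h : Fin 7 → Fin 7 → ℕ) (i : Fin 7) : GG h i i = 0 := by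
  unfold GG; rw [if_pos rfl]

theorem FF_eq {h : Fin 7 → Fin 7 → ℕ} (hg : Gr h) : FF h = 2 * (GG h 0 1 + GG h 0 2 + GG h 0 3 + GG h 0 4 + GG h 0 5 + GG h 0 6 + GG h 1 2 + GG h 1 3 + GG h 1 4 + GG h 1 5 + GG h 1 6 + GG h 2 3 + GG h 2 4 + GG h 2 5 + GG h 2 6 + GG h 3 4 + GG h 3 5 + GG h 3 6 + GG h 4 5 + GG h 4 6 + GG h 5 6) := by
  unfold FF
  simp only [Fin.sum_univ_seven, GG_self, GG_comm hg 1 0, GG_comm hg 2 0, GG_comm hg 3 0, GG_comm hg 4 0, GG_comm hg 5 0, GG_comm hg 6 0, GG_comm hg 2 1, GG_comm hg 3 1, GG_comm hg 4 1, GG_comm hg 5 1, GG_comm hg 6 1, GG_comm hg 3 2, GG_comm hg 4 2, GG_comm hg 5 2, GG_comm hg 6 2, GG_comm hg 4 3, GG_comm hg 5 3, GG_comm hg 6 3, GG_comm hg 5 4, GG_comm hg 6 4, GG_comm hg 6 5]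
  ring

theorem sorted_case {h : Fin 7 → Fin 7 → ℕ} (hg : Gr h) (g1 : deg h 1 ≤ deg h 0) (g2 : deg h 2 ≤ deg h 1)
    (g3 : deg h 3 ≤ deg h 2) (g4 : deg h 4 ≤ deg h 3) (g5 : deg h 5 ≤ deg h 4) (g6 : deg h 6 ≤ deg h 5)
    (g7 : 1 ≤ deg h 6) : 97683600000 ≤ FF h := by
  have e0 : deg h 0 = ((h 0 1) + ((h 0 2) + ((h 0 3) + ((h 0 4) + ((h 0 5) + (h 0 6)))))) := by
    simp only [deg, Fin.sum_univ_seven, hg.d, hg.s 1 0, hg.s 2 0, hg.s 3 0, hg.s 4 0, hg.s 5 0, hg.s 6 0, hg.s 2 1, hg.s 3 1, hg.s 4 1, hg.s 5 1, hg.s 6 1, hg.s 3 2, hg.s 4 2, hg.s 5 2, hg.s 6 2, hg.s 4 3, hg.s 5 3, hg.s 6 3, hg.s 5 4, hg.s 6 4, hg.s 6 5]; ring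
  have e1 : deg h 1 = ((h 0 1) + ((h 1 2) + ((h 1 3) + ((h 1 4) + ((h 1 5) + (h 1 6)))))) := by
    simp only [deg, Fin.sum_univ_seven, hg.d, hg.s 1 0, hg.s 2 0, hg.s 3 0, hg.s 4 0, hg.s 5 0, hg.s 6 0, hg.s 2 1, hg.s 3 1, hg.s 4 1, hg.s 5 1, hg.s 6 1, hg.s 3 2, hg.s 4 2, hg.s 5 2, hg.s 6 2, hg.s 4 3, hg.s 5 3, hg.s 6 3, hg.s 5 4, hg.s 6 4, hg.s 6 5]; ring
  have e2 : deg h 2 = ((h 0 2) + ((h 1 2) + ((h 2 3) + ((h 2 4) + ((h 2 5) + (h 2 6)))))) := by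
    simp only [deg, Fin.sum_univ_seven, hg.d, hg.s 1 0, hg.s 2 0, hg.s 3 0, hg.s 4 0, hg.s 5 0, hg.s 6 0, hg.s 2 1, hg.s 3 1, hg.s 4 1, hg.s 5 1, hg.s 6 1, hg.s 3 2, hg.s 4 2, hg.s 5 2, hg.s 6 2, hg.s 4 3, hg.s 5 3, hg.s 6 3, hg.s 5 4, hg.s 6 4, hg.s 6 5]; ring
  have e3 : deg h 3 = ((h 0 3) + ((h 1 3) + ((h 2 3) + ((h 3 4) + ((h 3 5) + (h 3 6)))))) := by
    simp only [deg, Fin.sum_univ_seven, hg.d, hg.s 1 0, hg.s 2 0, hg.s 3 0, hg.s 4 0, hg.s 5 0, hg.s 6 0, hg.s 2 1, hg.s 3 1, hg.s 4 1, hg.s 5 1, hg.s 6 1, hg.s 3 2, hg.s 4 2, hg.s 5 2, hg.s 6 2, hg.s 4 3, hg.s 5 3, hg.s 6 3, hg.s 5 4, hg.s 6 4, hg.s 6 5]; ring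
  have e4 : deg h 4 = ((h 0 4) + ((h 1 4) + ((h 2 4) + ((h 3 4) + ((h 4 5) + (h 4 6)))))) := by
    simp only [deg, Fin.sum_univ_seven, hg.d, hg.s 1 0, hg.s 2 0, hg.s 3 0, hg.s 4 0, hg.s 5 0, hg.s 6 0, hg.s 2 1, hg.s 3 1, hg.s 4 1, hg.s 5 1, hg.s 6 1, hg.s 3 2, hg.s 4 2, hg.s 5 2, hg.s 6 2, hg.s 4 3, hg.s 5 3, hg.s 6 3, hg.s 5 4, hg.s 6 4, hg.s 6 5]; ring
  have e5 : deg h 5 = ((h 0 5) + ((h 1 5) + ((h 2 5) + ((h 3 5) + ((h 4 5) + (h 5 6)))))) := by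
    simp only [deg, Fin.sum_univ_seven, hg.d, hg.s 1 0, hg.s 2 0, hg.s 3 0, hg.s 4 0, hg.s 5 0, hg.s 6 0, hg.s 2 1, hg.s 3 1, hg.s 4 1, hg.s 5 1, hg.s 6 1, hg.s 3 2, hg.s 4 2, hg.s 5 2, hg.s 6 2, hg.s 4 3, hg.s 5 3, hg.s 6 3, hg.s 5 4, hg.s 6 4, hg.s 6 5]; ring
  have e6 : deg h 6 = ((h 0 6) + ((h 1 6) + ((h 2 6) + ((h 3 6) + ((h 4 6) + (h 5 6)))))) := by
    simp only [deg, Fin.sum_univ_seven, hg.d, hg.s 1 0, hg.s 2 0, hg.s 3 0, hg.s 4 0, hg.s 5 0, hg.s 6 0, hg.s 2 1, hg.s 3 1, hg.s 4 1, hg.s 5 1, hg.s 6 1, hg.s 3 2, hg.s 4 2, hg.s 5 2, hg.s 6 2, hg.s 4 3, hg.s 5 3, hg.s 6 3, hg.s 5 4, hg.s 6 4, hg.s 6 5]; ring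
  have k01 : cod h 0 1 = (((h 0 2) * (h 1 2)) + (((h 0 3) * (h 1 3)) + (((h 0 4) * (h 1 4)) + (((h 0 5) * (h 1 5)) + ((h 0 6) * (h 1 6)))))) := by
    simp only [cod, Fin.sum_univ_seven, hg.d, hg.s 1 0, hg.s 2 0, hg.s 3 0, hg.s 4 0, hg.s 5 0, hg.s 6 0, hg.s 2 1, hg.s 3 1, hg.s 4 1, hg.s 5 1, hg.s 6 1, hg.s 3 2, hg.s 4 2, hg.s 5 2, hg.s 6 2, hg.s 4 3, hg.s 5 3, hg.s 6 3, hg.s 5 4, hg.s 6 4, hg.s 6 5]; ring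
  have k02 : cod h 0 2 = (((h 0 1) * (h 1 2)) + (((h 0 3) * (h 2 3)) + (((h 0 4) * (h 2 4)) + (((h 0 5) * (h 2 5)) + ((h 0 6) * (h 2 6)))))) := by
    simp only [cod, Fin.sum_univ_seven, hg.d, hg.s 1 0, hg.s 2 0, hg.s 3 0, hg.s 4 0, hg.s 5 0, hg.s 6 0, hg.s 2 1, hg.s 3 1, hg.s 4 1, hg.s 5 1, hg.s 6 1, hg.s 3 2, hg.s 4 2, hg.s 5 2, hg.s 6 2, hg.s 4 3, hg.s 5 3, hg.s 6 3, hg.s 5 4, hg.s 6 4, hg.s 6 5]; ring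
  have k03 : cod h 0 3 = (((h 0 1) * (h 1 3)) + (((h 0 2) * (h 2 3)) + (((h 0 4) * (h 3 4)) + (((h 0 5) * (h 3 5)) + ((h 0 6) * (h 3 6)))))) := by
    simp only [cod, Fin.sum_univ_seven, hg.d, hg.s 1 0, hg.s 2 0, hg.s 3 0, hg.s 4 0, hg.s 5 0, hg.s 6 0, hg.s 2 1, hg.s 3 1, hg.s 4 1, hg.s 5 1, hg.s 6 1, hg.s 3 2, hg.s 4 2, hg.s 5 2, hg.s 6 2, hg.s 4 3, hg.s 5 3, hg.s 6 3, hg.s 5 4, hg.s 6 4, hg.s 6 5]; ring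
  have k04 : cod h 0 4 = (((h 0 1) * (h 1 4)) + (((h 0 2) * (h 2 4)) + (((h 0 3) * (h 3 4)) + (((h 0 5) * (h 4 5)) + ((h 0 6) * (h 4 6)))))) := by
    simp only [cod, Fin.sum_univ_seven, hg.d, hg.s 1 0, hg.s 2 0, hg.s 3 0, hg.s 4 0, hg.s 5 0, hg.s 6 0, hg.s 2 1, hg.s 3 1, hg.s 4 1, hg.s 5 1, hg.s 6 1, hg.s 3 2, hg.s 4 2, hg.s 5 2, hg.s 6 2, hg.s 4 3, hg.s 5 3, hg.s 6 3, hg.s 5 4, hg.s 6 4, hg.s 6 5]; ring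
  have k05 : cod h 0 5 = (((h 0 1) * (h 1 5)) + (((h 0 2) * (h 2 5)) + (((h 0 3) * (h 3 5)) + (((h 0 4) * (h 4 5)) + ((h 0 6) * (h 5 6)))))) := by
    simp only [cod, Fin.sum_univ_seven, hg.d, hg.s 1 0, hg.s 2 0, hg.s 3 0, hg.s 4 0, hg.s 5 0, hg.s 6 0, hg.s 2 1, hg.s 3 1, hg.s 4 1, hg.s 5 1, hg.s 6 1, hg.s 3 2, hg.s 4 2, hg.s 5 2, hg.s 6 2, hg.s 4 3, hg.s 5 3, hg.s 6 3, hg.s 5 4, hg.s 6 4, hg.s 6 5]; ring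
  have k06 : cod h 0 6 = (((h 0 1) * (h 1 6)) + (((h 0 2) * (h 2 6)) + (((h 0 3) * (h 3 6)) + (((h 0 4) * (h 4 6)) + ((h 0 5) * (h 5 6)))))) := by
    simp only [cod, Fin.sum_univ_seven, hg.d, hg.s 1 0, hg.s 2 0, hg.s 3 0, hg.s 4 0, hg.s 5 0, hg.s 6 0, hg.s 2 1, hg.s 3 1, hg.s 4 1, hg.s 5 1, hg.s 6 1, hg.s 3 2, hg.s 4 2, hg.s 5 2, hg.s 6 2, hg.s 4 3, hg.s 5 3, hg.s 6 3, hg.s 5 4, hg.s 6 4, hg.s 6 5]; ring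
  have k12 : cod h 1 2 = (((h 0 1) * (h 0 2)) + (((h 1 3) * (h 2 3)) + (((h 1 4) * (h 2 4)) + (((h 1 5) * (h 2 5)) + ((h 1 6) * (h 2 6)))))) := by
    simp only [cod, Fin.sum_univ_seven, hg.d, hg.s 1 0, hg.s 2 0, hg.s 3 0, hg.s 4 0, hg.s 5 0, hg.s 6 0, hg.s 2 1, hg.s 3 1, hg.s 4 1, hg.s 5 1, hg.s 6 1, hg.s 3 2, hg.s 4 2, hg.s 5 2, hg.s 6 2, hg.s 4 3, hg.s 5 3, hg.s 6 3, hg.s 5 4, hg.s 6 4, hg.s 6 5]; ring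
  have k13 : cod h 1 3 = (((h 0 1) * (h 0 3)) + (((h 1 2) * (h 2 3)) + (((h 1 4) * (h 3 4)) + (((h 1 5) * (h 3 5)) + ((h 1 6) * (h 3 6)))))) := by
    simp only [cod, Fin.sum_univ_seven, hg.d, hg.s 1 0, hg.s 2 0, hg.s 3 0, hg.s 4 0, hg.s 5 0, hg.s 6 0, hg.s 2 1, hg.s 3 1, hg.s 4 1, hg.s 5 1, hg.s 6 1, hg.s 3 2, hg.s 4 2, hg.s 5 2, hg.s 6 2, hg.s 4 3, hg.s 5 3, hg.s 6 3, hg.s 5 4, hg.s 6 4, hg.s 6 5]; ring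
  have k14 : cod h 1 4 = (((h 0 1) * (h 0 4)) + (((h 1 2) * (h 2 4)) + (((h 1 3) * (h 3 4)) + (((h 1 5) * (h 4 5)) + ((h 1 6) * (h 4 6)))))) := by
    simp only [cod, Fin.sum_univ_seven, hg.d, hg.s 1 0, hg.s 2 0, hg.s 3 0, hg.s 4 0, hg.s 5 0, hg.s 6 0, hg.s 2 1, hg.s 3 1, hg.s 4 1, hg.s 5 1, hg.s 6 1, hg.s 3 2, hg.s 4 2, hg.s 5 2, hg.s 6 2, hg.s 4 3, hg.s 5 3, hg.s 6 3, hg.s 5 4, hg.s 6 4, hg.s 6 5]; ring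
  have k15 : cod h 1 5 = (((h 0 1) * (h 0 5)) + (((h 1 2) * (h 2 5)) + (((h 1 3) * (h 3 5)) + (((h 1 4) * (h 4 5)) + ((h 1 6) * (h 5 6)))))) := by
    simp only [cod, Fin.sum_univ_seven, hg.d, hg.s 1 0, hg.s 2 0, hg.s 3 0, hg.s 4 0, hg.s 5 0, hg.s 6 0, hg.s 2 1, hg.s 3 1, hg.s 4 1, hg.s 5 1, hg.s 6 1, hg.s 3 2, hg.s 4 2, hg.s 5 2, hg.s 6 2, hg.s 4 3, hg.s 5 3, hg.s 6 3, hg.s 5 4, hg.s 6 4, hg.s 6 5]; ring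
  have k16 : cod h 1 6 = (((h 0 1) * (h 0 6)) + (((h 1 2) * (h 2 6)) + (((h 1 3) * (h 3 6)) + (((h 1 4) * (h 4 6)) + ((h 1 5) * (h 5 6)))))) := by
    simp only [cod, Fin.sum_univ_seven, hg.d, hg.s 1 0, hg.s 2 0, hg.s 3 0, hg.s 4 0, hg.s 5 0, hg.s 6 0, hg.s 2 1, hg.s 3 1, hg.s 4 1, hg.s 5 1, hg.s 6 1, hg.s 3 2, hg.s 4 2, hg.s 5 2, hg.s 6 2, hg.s 4 3, hg.s 5 3, hg.s 6 3, hg.s 5 4, hg.s 6 4, hg.s 6 5]; ring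
  have k23 : cod h 2 3 = (((h 0 2) * (h 0 3)) + (((h 1 2) * (h 1 3)) + (((h 2 4) * (h 3 4)) + (((h 2 5) * (h 3 5)) + ((h 2 6) * (h 3 6)))))) := by
    simp only [cod, Fin.sum_univ_seven, hg.d, hg.s 1 0, hg.s 2 0, hg.s 3 0, hg.s 4 0, hg.s 5 0, hg.s 6 0, hg.s 2 1, hg.s 3 1, hg.s 4 1, hg.s 5 1, hg.s 6 1, hg.s 3 2, hg.s 4 2, hg.s 5 2, hg.s 6 2, hg.s 4 3, hg.s 5 3, hg.s 6 3, hg.s 5 4, hg.s 6 4, hg.s 6 5]; ring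
  have k24 : cod h 2 4 = (((h 0 2) * (h 0 4)) + (((h 1 2) * (h 1 4)) + (((h 2 3) * (h 3 4)) + (((h 2 5) * (h 4 5)) + ((h 2 6) * (h 4 6)))))) := by
    simp only [cod, Fin.sum_univ_seven, hg.d, hg.s 1 0, hg.s 2 0, hg.s 3 0, hg.s 4 0, hg.s 5 0, hg.s 6 0, hg.s 2 1, hg.s 3 1, hg.s 4 1, hg.s 5 1, hg.s 6 1, hg.s 3 2, hg.s 4 2, hg.s 5 2, hg.s 6 2, hg.s 4 3, hg.s 5 3, hg.s 6 3, hg.s 5 4, hg.s 6 4, hg.s 6 5]; ring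
  have k25 : cod h 2 5 = (((h 0 2) * (h 0 5)) + (((h 1 2) * (h 1 5)) + (((h 2 3) * (h 3 5)) + (((h 2 4) * (h 4 5)) + ((h 2 6) * (h 5 6)))))) := by
    simp only [cod, Fin.sum_univ_seven, hg.d, hg.s 1 0, hg.s 2 0, hg.s 3 0, hg.s 4 0, hg.s 5 0, hg.s 6 0, hg.s 2 1, hg.s 3 1, hg.s 4 1, hg.s 5 1, hg.s 6 1, hg.s 3 2, hg.s 4 2, hg.s 5 2, hg.s 6 2, hg.s 4 3, hg.s 5 3, hg.s 6 3, hg.s 5 4, hg.s 6 4, hg.s 6 5]; ring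
  have k26 : cod h 2 6 = (((h 0 2) * (h 0 6)) + (((h 1 2) * (h 1 6)) + (((h 2 3) * (h 3 6)) + (((h 2 4) * (h 4 6)) + ((h 2 5) * (h 5 6)))))) := by
    simp only [cod, Fin.sum_univ_seven, hg.d, hg.s 1 0, hg.s 2 0, hg.s 3 0, hg.s 4 0, hg.s 5 0, hg.s 6 0, hg.s 2 1, hg.s 3 1, hg.s 4 1, hg.s 5 1, hg.s 6 1, hg.s 3 2, hg.s 4 2, hg.s 5 2, hg.s 6 2, hg.s 4 3, hg.s 5 3, hg.s 6 3, hg.s 5 4, hg.s 6 4, hg.s 6 5]; ring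
  have k34 : cod h 3 4 = (((h 0 3) * (h 0 4)) + (((h 1 3) * (h 1 4)) + (((h 2 3) * (h 2 4)) + (((h 3 5) * (h 4 5)) + ((h 3 6) * (h 4 6)))))) := by
    simp only [cod, Fin.sum_univ_seven, hg.d, hg.s 1 0, hg.s 2 0, hg.s 3 0, hg.s 4 0, hg.s 5 0, hg.s 6 0, hg.s 2 1, hg.s 3 1, hg.s 4 1, hg.s 5 1, hg.s 6 1, hg.s 3 2, hg.s 4 2, hg.s 5 2, hg.s 6 2, hg.s 4 3, hg.s 5 3, hg.s 6 3, hg.s 5 4, hg.s 6 4, hg.s 6 5]; ring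
  have k35 : cod h 3 5 = (((h 0 3) * (h 0 5)) + (((h 1 3) * (h 1 5)) + (((h 2 3) * (h 2 5)) + (((h 3 4) * (h 4 5)) + ((h 3 6) * (h 5 6)))))) := by
    simp only [cod, Fin.sum_univ_seven, hg.d, hg.s 1 0, hg.s 2 0, hg.s 3 0, hg.s 4 0, hg.s 5 0, hg.s 6 0, hg.s 2 1, hg.s 3 1, hg.s 4 1, hg.s 5 1, hg.s 6 1, hg.s 3 2, hg.s 4 2, hg.s 5 2, hg.s 6 2, hg.s 4 3, hg.s 5 3, hg.s 6 3, hg.s 5 4, hg.s 6 4, hg.s 6 5]; ring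
  have k36 : cod h 3 6 = (((h 0 3) * (h 0 6)) + (((h 1 3) * (h 1 6)) + (((h 2 3) * (h 2 6)) + (((h 3 4) * (h 4 6)) + ((h 3 5) * (h 5 6)))))) := by
    simp only [cod, Fin.sum_univ_seven, hg.d, hg.s 1 0, hg.s 2 0, hg.s 3 0, hg.s 4 0, hg.s 5 0, hg.s 6 0, hg.s 2 1, hg.s 3 1, hg.s 4 1, hg.s 5 1, hg.s 6 1, hg.s 3 2, hg.s 4 2, hg.s 5 2, hg.s 6 2, hg.s 4 3, hg.s 5 3, hg.s 6 3, hg.s 5 4, hg.s 6 4, hg.s 6 5]; ring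
  have k45 : cod h 4 5 = (((h 0 4) * (h 0 5)) + (((h 1 4) * (h 1 5)) + (((h 2 4) * (h 2 5)) + (((h 3 4) * (h 3 5)) + ((h 4 6) * (h 5 6)))))) := by
    simp only [cod, Fin.sum_univ_seven, hg.d, hg.s 1 0, hg.s 2 0, hg.s 3 0, hg.s 4 0, hg.s 5 0, hg.s 6 0, hg.s 2 1, hg.s 3 1, hg.s 4 1, hg.s 5 1, hg.s 6 1, hg.s 3 2, hg.s 4 2, hg.s 5 2, hg.s 6 2, hg.s 4 3, hg.s 5 3, hg.s 6 3, hg.s 5 4, hg.s 6 4, hg.s 6 5]; ring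
  have k46 : cod h 4 6 = (((h 0 4) * (h 0 6)) + (((h 1 4) * (h 1 6)) + (((h 2 4) * (h 2 6)) + (((h 3 4) * (h 3 6)) + ((h 4 5) * (h 5 6)))))) := by
    simp only [cod, Fin.sum_univ_seven, hg.d, hg.s 1 0, hg.s 2 0, hg.s 3 0, hg.s 4 0, hg.s 5 0, hg.s 6 0, hg.s 2 1, hg.s 3 1, hg.s 4 1, hg.s 5 1, hg.s 6 1, hg.s 3 2, hg.s 4 2, hg.s 5 2, hg.s 6 2, hg.s 4 3, hg.s 5 3, hg.s 6 3, hg.s 5 4, hg.s 6 4, hg.s 6 5]; ring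
  have k56 : cod h 5 6 = (((h 0 5) * (h 0 6)) + (((h 1 5) * (h 1 6)) + (((h 2 5) * (h 2 6)) + (((h 3 5) * (h 3 6)) + ((h 4 5) * (h 4 6)))))) := by
    simp only [cod, Fin.sum_univ_seven, hg.d, hg.s 1 0, hg.s 2 0, hg.s 3 0, hg.s 4 0, hg.s 5 0, hg.s 6 0, hg.s 2 1, hg.s 3 1, hg.s 4 1, hg.s 5 1, hg.s 6 1, hg.s 3 2, hg.s 4 2, hg.s 5 2, hg.s 6 2, hg.s 4 3, hg.s 5 3, hg.s 6 3, hg.s 5 4, hg.s 6 4, hg.s 6 5]; ring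
  have hp := part_all (hg.b 0 1) (hg.b 0 2) (hg.b 0 3) (hg.b 0 4) (hg.b 0 5) (hg.b 0 6)
  have a1 := cond_tr (B2_true (B2_true (B2_true (B2_true (B2_true hp (hg.b 1 2)) (hg.b 1 3)) (hg.b 1 4)) (hg.b 1 5)) (hg.b 1 6)) (Nat.ble_eq_true_of_le (by rw [e0, e1] at g1; exact g1))
  have a2 := cond_tr (B2_true (B2_true (B2_true (B2_true a1 (hg.b 2 3)) (hg.b 2 4)) (hg.b 2 5)) (hg.b 2 6)) (Nat.ble_eq_true_of_le (by rw [e1, e2] at g2; exact g2))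
  have a3 := cond_tr (B2_true (B2_true (B2_true a2 (hg.b 3 4)) (hg.b 3 5)) (hg.b 3 6)) (Nat.ble_eq_true_of_le (by rw [e2, e3] at g3; exact g3))
  have a4 := cond_tr (B2_true (B2_true a3 (hg.b 4 5)) (hg.b 4 6)) (Nat.ble_eq_true_of_le (by rw [e3, e4] at g4; exact g4))
  have a5 := cond_tr (cond_tr (cond_tr (B2_true a4 (hg.b 5 6)) (Nat.ble_eq_true_of_le (by rw [e4, e5] at g5; exact g5))) (Nat.ble_eq_true_of_le (by rw [e5, e6] at g6; exact g6))) (Nat.ble_eq_true_of_le (by rw [e6] at g7; exact g7))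
  have a6 : 97683600000 + 42 * ((lk (h 0 1) (deg h 0 - h 0 1) (deg h 1 - h 0 1) (cod h 0 1)) + ((lk (h 0 2) (deg h 0 - h 0 2) (deg h 2 - h 0 2) (cod h 0 2)) + ((lk (h 0 3) (deg h 0 - h 0 3) (deg h 3 - h 0 3) (cod h 0 3)) + ((lk (h 0 4) (deg h 0 - h 0 4) (deg h 4 - h 0 4) (cod h 0 4)) + ((lk (h 0 5) (deg h 0 - h 0 5) (deg h 5 - h 0 5) (cod h 0 5)) + ((lk (h 0 6) (deg h 0 - h 0 6) (deg h 6 - h 0 6) (cod h 0 6)) + ((lk (h 1 2) (deg h 1 - h 1 2) (deg h 2 - h 1 2) (cod h 1 2)) + ((lk (h 1 3) (deg h 1 - h 1 3) (deg h 3 - h 1 3) (cod h 1 3)) + ((lk (h 1 4) (deg h 1 - h 1 4) (deg h 4 - h 1 4) (cod h 1 4)) + ((lk (h 1 5) (deg h 1 - h 1 5) (deg h 5 - h 1 5) (cod h 1 5)) + ((lk (h 1 6) (deg h 1 - h 1 6) (deg h 6 - h 1 6) (cod h 1 6)) + ((lk (h 2 3) (deg h 2 - h 2 3) (deg h 3 - h 2 3) (cod h 2 3)) + ((lk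 (h 2 4) (deg h 2 - h 2 4) (deg h 4 - h 2 4) (cod h 2 4)) + ((lk (h 2 5) (deg h 2 - h 2 5) (deg h 5 - h 2 5) (cod h 2 5)) + ((lk (h 2 6) (deg h 2 - h 2 6) (deg h 6 - h 2 6) (cod h 2 6)) + ((lk (h 3 4) (deg h 3 - h 3 4) (deg h 4 - h 3 4) (cod h 3 4)) + ((lk (h 3 5) (deg h 3 - h 3 5) (deg h 5 - h 3 5) (cod h 3 5)) + ((lk (h 3 6) (deg h 3 - h 3 6) (deg h 6 - h 3 6) (cod h 3 6)) + ((lk (h 4 5) (deg h 4 - h 4 5) (deg h 5 - h 4 5) (cod h 4 5)) + ((lk (h 4 6) (deg h 4 - h 4 6) (deg h 6 - h 4 6) (cod h 4 6)) + (lk (h 5 6) (deg h 5 - h 5 6) (deg h 6 - h 5 6) (cod h 5 6)))))))))))))))))))))) ≤ 10000000000 * (deg h 0 + (deg h 1 + (deg h 2 + (deg h 3 + (deg h 4 + (deg h 5 + deg h 6)))))) + 8820000000000 := by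
    rw [e0, e1, e2, e3, e4, e5, e6, k01, k02, k03, k04, k05, k06, k12, k13, k14, k15, k16, k23, k24, k25, k26, k34, k35, k36, k45, k46, k56]
    exact Nat.le_of_ble_eq_true a5
  have a7 : (97683600000 : ℤ) + 42 * ((lk (h 0 1) (deg h 0 - h 0 1) (deg h 1 - h 0 1) (cod h 0 1) : ℤ) + ((lk (h 0 2) (deg h 0 - h 0 2) (deg h 2 - h 0 2) (cod h 0 2) : ℤ) + ((lk (h 0 3) (deg h 0 - h 0 3) (deg h 3 - h 0 3) (cod h 0 3) : ℤ) + ((lk (h 0 4) (deg h 0 - h 0 4) (deg h 4 - h 0 4) (cod h 0 4) : ℤ) + ((lk (h 0 5) (deg h 0 - h 0 5) (deg h 5 - h 0 5) (cod h 0 5) : ℤ) + ((lk (h 0 6) (deg h 0 - h 0 6) (deg h 6 - h 0 6) (cod h 0 6) : ℤ) + ((lk (h 1 2) (deg h 1 - h 1 2) (deg h 2 - h 1 2) (cod h 1 2) : ℤ) + ((lk (h 1 3) (deg h 1 - h 1 3) (deg h 3 - h 1 3) (cod h 1 3) : ℤ) + ((lk (h 1 4) (deg h 1 - h 1 4) (deg h 4 - h 1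 4) (cod h 1 4) : ℤ) + ((lk (h 1 5) (deg h 1 - h 1 5) (deg h 5 - h 1 5) (cod h 1 5) : ℤ) + ((lk (h 1 6) (deg h 1 - h 1 6) (deg h 6 - h 1 6) (cod h 1 6) : ℤ) + ((lk (h 2 3) (deg h 2 - h 2 3) (deg h 3 - h 2 3) (cod h 2 3) : ℤ) + ((lk (h 2 4) (deg h 2 - h 2 4) (deg h 4 - h 2 4) (cod h 2 4) : ℤ) + ((lk (h 2 5) (deg h 2 - h 2 5) (deg h 5 - h 2 5) (cod h 2 5) : ℤ) + ((lk (h 2 6) (deg h 2 - h 2 6) (deg h 6 - h 2 6) (cod h 2 6) : ℤ) + ((lk (h 3 4) (deg h 3 - h 3 4) (deg h 4 - h 3 4) (cod h 3 4) : ℤ) + ((lk (h 3 5) (deg h 3 - h 3 5) (deg h 5 - h 3 5) (cod h 3 5) : ℤ) + ((lk (h 3 6) (deg h 3 - h 3 6) (deg h 6 - h 3 6) (cod h 3 6) : ℤ) + ((lk (h 4 5) (deg h 4 - h 4 5) (deg h 5 - h 4 5) (cod h 4 5) : ℤ) + ((lk (h 4 6) (deg h 4 - h 4 6) (deg h 6 - h 4 6) (cod h 4 6) : ℤ) + (lk (h 5 6) (deg h 5 - h 5 6) (deg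 h 6 - h 5 6) (cod h 5 6) : ℤ))))))))))))))))))))) ≤ 10000000000 * ((deg h 0 : ℤ) + ((deg h 1 : ℤ) + ((deg h 2 : ℤ) + ((deg h 3 : ℤ) + ((deg h 4 : ℤ) + ((deg h 5 : ℤ) + (deg h 6 : ℤ))))))) + 8820000000000 := by exact_mod_cast a6
  have f : ((deg h 0 : ℤ) + ((deg h 1 : ℤ) + ((deg h 2 : ℤ) + ((deg h 3 : ℤ) + ((deg h 4 : ℤ) + ((deg h 5 : ℤ) + (deg h 6 : ℤ))))))) = 2 * ((h 0 1 : ℤ) + ((h 0 2 : ℤ) + ((h 0 3 : ℤ) + ((h 0 4 : ℤ) + ((h 0 5 : ℤ) + ((h 0 6 : ℤ) + ((h 1 2 : ℤ) + ((h 1 3 : ℤ) + ((h 1 4 : ℤ) + ((h 1 5 : ℤ) + ((h 1 6 : ℤ) + ((h 2 3 : ℤ) + ((h 2 4 : ℤ) + ((h 2 5 : ℤ) + ((h 2 6 : ℤ) + ((h 3 4 : ℤ) + ((h 3 5 : ℤ) + ((h 3 6 : ℤ) + ((h 4 5 : ℤ) + ((h 4 6 : ℤ) + (h 5 6 : ℤ))))))))))))))))))))) := by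
    rw [e0, e1, e2, e3, e4, e5, e6]; push_cast; ring
  rw [FF_eq hg, GG_eq hg (show (0 : Fin 7) ≠ 1 by decide), GG_eq hg (show (0 : Fin 7) ≠ 2 by decide), GG_eq hg (show (0 : Fin 7) ≠ 3 by decide), GG_eq hg (show (0 : Fin 7) ≠ 4 by decide), GG_eq hg (show (0 : Fin 7) ≠ 5 by decide), GG_eq hg (show (0 : Fin 7) ≠ 6 by decide), GG_eq hg (show (1 : Fin 7) ≠ 2 by decide), GG_eq hg (show (1 : Fin 7) ≠ 3 by decide), GG_eq hg (show (1 : Fin 7) ≠ 4 by decide), GG_eq hg (show (1 : Fin 7) ≠ 5 by decide), GG_eq hg (show (1 : Fin 7) ≠ 6 by decide), GG_eq hg (show (2 : Fin 7) ≠ 3 by decide), GG_eq hg (show (2 : Fin 7) ≠ 4 by decide), GG_eq hg (show (2 : Fin 7) ≠ 5 by decide), GG_eq hg (show (2 : Fin 7) ≠ 6 by decide), GG_eq hg (show (3 : Fin 7) ≠ 4 by decide), GG_eq hg (show (3 : Fin 7) ≠ 5 by decide), GG_eq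 hg (show (3 : Fin 7) ≠ 6 by decide), GG_eq hg (show (4 : Fin 7) ≠ 5 by decide), GG_eq hg (show (4 : Fin 7) ≠ 6 by decide), GG_eq hg (show (5 : Fin 7) ≠ 6 by decide)]
  clear hp a1 a2 a3 a4 a5 a6 e0 e1 e2 e3 e4 e5 e6 k01 k02 k03 k04 k05 k06 k12 k13 k14 k15 k16 k23 k24 k25 k26 k34 k35 k36 k45 k46 k56
  linarith

theorem gr_perm {h : Fin 7 → Fin 7 → ℕ} (hg : Gr h) (σ : Equiv.Perm (Fin 7)) :
    Gr (fun i j => h (σ i) (σ j)) where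
  s i j := hg.s _ _
  b i j := hg.b _ _
  d i := hg.d _

theorem deg_perm (h : Fin 7 → Fin 7 → ℕ) (σ : Equiv.Perm (Fin 7)) (i : Fin 7) :
    deg (fun i j => h (σ i) (σ j)) i = deg h (σ i) :=
  Equiv.sum_comp σ (fun t => h (σ i) t)

theorem cod_perm (h : Fin 7 → Fin 7 → ℕ) (σ : Equiv.Perm (Fin 7)) (i j : Fin 7) :
    cod (fun i j => h (σ i) (σ j)) i j = cod h (σ i) (σ j) :=
  Equiv.sum_comp σ (fun t => h (σ i) t * h (σ j) t)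

theorem GG_perm (h : Fin 7 → Fin 7 → ℕ) (σ : Equiv.Perm (Fin 7)) (i j : Fin 7) :
    GG (fun i j => h (σ i) (σ j)) i j = GG h (σ i) (σ j) := by
  unfold GG FZ
  rw [deg_perm, deg_perm, cod_perm]
  simp only [σ.injective.eq_iff]

theorem FF_perm (h : Fin 7 → Fin 7 → ℕ) (σ : Equiv.Perm (Fin 7)) :
    FF (fun i j => h (σ i) (σ j)) = FF h := by
  unfold FF
  simp only [GG_perm]
  rw [← Equiv.sum_comp σ (fun i => ∑ j, GG h i j)]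
  exact sum_congr rfl fun i _ => Equiv.sum_comp σ (fun j => GG h (σ i) j)

/-- the inequality for all graphs on seven vertices without isolated vertices -/
theorem pointwise {h : Fin 7 → Fin 7 → ℕ} (hg : Gr h) (h1 : ∀ i, 1 ≤ deg h i) :
    97683600000 ≤ FF h := by
  set f : Fin 7 → ℕᵒᵈ := fun i => OrderDual.toDual (deg h i) with hf
  set σ : Equiv.Perm (Fin 7) := Tuple.sort f with hσ
  have hm : ∀ i j : Fin 7, i ≤ j → deg h (σ j) ≤ deg h (σ i) := fun i j hij =>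
    Tuple.monotone_sort f hij
  rw [← FF_perm h σ]
  refine sorted_case (gr_perm hg σ) ?_ ?_ ?_ ?_ ?_ ?_ ?_
  all_goals simp only [deg_perm]
  · exact hm 0 1 (by decide)
  · exact hm 1 2 (by decide)
  · exact hm 2 3 (by decide)
  · exact hm 3 4 (by decide)
  · exact hm 4 5 (by decide)
  · exact hm 5 6 (by decide)
  · exact h1 _

end Pool.Agent.W969.K65
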